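import Pool.Agent.Q250.IR.Final

/-!
Iterated remainder sets: for every `j ≥ 2` the sequence `s_j(n)/n` does not converge, and in fact
`limsup - liminf ≥ 1/(j+4)!`.
-/

set_option autoImplicit false

namespace Pool.Agent.Results.MP_376bf0_nt.NonConvergence

open Filter Topology

/-- The iterated remainder sets: `S_0(n) = {1, …, ⌊n/2⌋}` and
`S_{j+1}(n) = {n mod k : k ∈ S_j(n) \ {0}}`. -/
def remSet (n : ℕ) : ℕ → Finset ℕ
  | 0 => Finset.Icc 1 (n / 2)
  | (j + 1) => ((remSet n j).erase 0).image (fun k => n % k)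

lemma remSet_eq (n j : ℕ) : remSet n j = Q250.IR.S n j := by
  induction j with
  | zero => rfl
  | succ j ih =>
    rw [remSet, Q250.IR.S, ih]

/-- For every `j ≥ 2` the sequence `s_j(n)/n` has no limit, its lower limit is strictly smaller
than its upper limit, and the difference is at least `1/(j+4)!`. -/
theorem result (j : ℕ) (hj : 2 ≤ j) :
    (¬ ∃ L : ℝ, Tendsto (fun n : ℕ => ((remSet n j).card : ℝ) / (n : ℝ)) atTop (𝓝 L)) ∧
    liminf (fun n : ℕ => ((remSet n j).card : ℝ) / (n : ℝ)) atTop <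
      limsup (fun n : ℕ => ((remSet n j).card : ℝ) / (n : ℝ)) atTop ∧
    liminf (fun n : ℕ => ((remSet n j).card : ℝ) / (n : ℝ)) atTop +
        1 / ((j + 4).factorial : ℝ) ≤
      limsup (fun n : ℕ => ((remSet n j).card : ℝ) / (n : ℝ)) atTop := by
  have e : (fun n : ℕ => ((remSet n j).card : ℝ) / (n : ℝ)) = fun n => Q250.IR.ratio j n := by
    funext n
    unfold Q250.IR.ratio
    rw [remSet_eq]
  rw [e]
  have h := Q250.IR.gap j hj
  have h0 : (0 : ℝ) < 1 / ((j + 4).factorial : ℝ) := by positivity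
  exact ⟨Q250.IR.not_tendsto j hj, by linarith, h⟩

end Pool.Agent.Results.MP_376bf0_nt.NonConvergence
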